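import Pool.Agent.LPC.Stmts

/-!
Squad LPC, row CLA: one class modulo `2L`.
-/

set_option autoImplicit false

noncomputable section

open MeasureTheory Filter Topology
open scoped RealInnerProductSpace

namespace Pool.Agent.LPC.H69

open Pool.Agent.LPC

theorem half {n : ℕ} (m : ℕ) : ∀ U : Finset (V n), U.card ≤ m → (∀ v ∈ U, v ≠ 0) →
    ∃ U' : Finset (V n), U' ⊆ U ∧ (∀ v ∈ U', ∀ w ∈ U', v ≠ -w) ∧ U.card ≤ 2 * U'.card := by
  classical
  induction m with
  | zero =>
    intro U hU _
    refine ⟨∅, by simp, by simp, by simpa using hU⟩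
  | succ m ih =>
    intro U hU h0
    rcases U.eq_empty_or_nonempty with rfl | ⟨v, hv⟩
    · exact ⟨∅, by simp, by simp, by simp⟩
    · have hc1 : ((U.erase v).erase (-v)).card ≤ m := by
        have h1 : (U.erase v).card = U.card - 1 := Finset.card_erase_of_mem hv
        have h2 := Finset.card_erase_le (s := U.erase v) (a := -v)
        omega
      have hc2 : U.card ≤ ((U.erase v).erase (-v)).card + 2 := by
        have h1 : (U.erase v).card = U.card - 1 := Finset.card_erase_of_mem hv
        have h2 := Finset.pred_card_le_card_erase (s := U.erase v) (a := -v)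
        omega
      obtain ⟨U', hs, hanti, hcard⟩ := ih ((U.erase v).erase (-v)) hc1
        (fun w hw => h0 w (Finset.mem_of_mem_erase (Finset.mem_of_mem_erase hw)))
      have hvv : v ≠ -v := by
        intro h
        apply h0 v hv
        have h2 : (2 : ℝ) • v = 0 := by
          rw [two_smul]
          nth_rewrite 2 [h]
          simp
        exact (smul_eq_zero.1 h2).resolve_left (by norm_num)
      have hnv : v ∉ U' := by
        intro h
        have := hs h
        simp at this
      have hnn : ∀ w ∈ U', w ≠ -v := by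
        intro w hw h
        have h1 := hs hw
        rw [Finset.mem_erase] at h1
        exact h1.1 h
      refine ⟨insert v U', ?_, ?_, ?_⟩
      · intro w hw
        rcases Finset.mem_insert.1 hw with rfl | hw
        · exact hv
        · exact Finset.mem_of_mem_erase (Finset.mem_of_mem_erase (hs hw))
      · intro a ha b hb
        rcases Finset.mem_insert.1 ha with h1 | h1
        · rcases Finset.mem_insert.1 hb with h2 | h2
          · rw [h1, h2]
            exact hvv
          · rw [h1]
            intro h
            apply hnn b h2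
            rw [h, neg_neg]
        · rcases Finset.mem_insert.1 hb with h2 | h2
          · rw [h2]
            exact hnn a h1
          · exact hanti a h1 b h2
      · rw [Finset.card_insert_of_notMem hnv]
        omega

theorem cla (h1 : IndStmt) (h2 : CosStmt) : ClaStmt := by
  classical
  intro n s τ L hn hs hL hτ2 hτ T hT hcong
  have hn0 : (0 : ℝ) < n := by
    have : 0 < n := by omega
    exact_mod_cast this
  have hn2 : (2 : ℝ) ≤ n := by exact_mod_cast hn
  have hinv : (1 : ℝ) / n ≤ 1 := by
    rw [div_le_one hn0]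
    linarith
  have hinv0 : (0 : ℝ) < 1 / n := by positivity
  have hwt1 : ∀ t : ℝ, wt n s τ t ≤ 1 := by
    intro t
    unfold wt
    split_ifs
    · exact le_refl _
    · exact hinv
    · norm_num
  by_cases hc : ∃ v ∈ T, ‖v‖ ^ 2 < (4 - τ) * s
  · obtain ⟨v, hv, hvs⟩ := hc
    have hzero : ∀ w ∈ T, w ∉ T.filter (fun w => w = v ∨ w = -v) → wt n s τ (‖w‖ ^ 2) = 0 := by
      intro w hw hw'
      have hwv : ¬ (w = v ∨ w = -v) := fun h => hw' (Finset.mem_filter.2 ⟨hw, h⟩)
      push Not at hwv
      obtain ⟨z, hz, hzz⟩ := hcong w hw v hv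
      have h4 := (h2 n s L hn hs hL w (hT w hw).1 v (hT v hv).1 z hz hzz hwv.1 hwv.2).1
      have h5 : τ * s < ‖w‖ ^ 2 := by nlinarith
      unfold wt
      rw [if_neg, if_neg]
      · exact not_le.2 h5
      · rw [not_lt]
        nlinarith
    rw [← Finset.sum_subset (Finset.filter_subset (fun w => w = v ∨ w = -v) T) hzero]
    calc ∑ w ∈ T.filter (fun w => w = v ∨ w = -v), wt n s τ (‖w‖ ^ 2)
        ≤ ∑ w ∈ T.filter (fun w => w = v ∨ w = -v), (1 : ℝ) :=
          Finset.sum_le_sum (fun w _ => hwt1 _)
      _ = ((T.filter (fun w => w = v ∨ w = -v)).card : ℝ) := by simp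
      _ ≤ (({v, -v} : Finset (V n)).card : ℝ) := by
          have : (T.filter (fun w => w = v ∨ w = -v)).card ≤ ({v, -v} : Finset (V n)).card := by
            apply Finset.card_le_card
            intro w hw
            have := (Finset.mem_filter.1 hw).2
            simpa using this
          exact_mod_cast this
      _ ≤ 2 := by
          have := Finset.card_le_two (a := v) (b := -v)
          exact_mod_cast this
  · push Not at hc
    have hsum : ∑ v ∈ T, wt n s τ (‖v‖ ^ 2) =
        ∑ v ∈ T.filter (fun v => ‖v‖ ^ 2 ≤ τ * s), (1 : ℝ) / n := by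
      rw [Finset.sum_filter]
      apply Finset.sum_congr rfl
      intro v hv
      unfold wt
      rw [if_neg (not_lt.2 (hc v hv))]
    rw [hsum, Finset.sum_const, nsmul_eq_mul]
    set U := T.filter (fun v => ‖v‖ ^ 2 ≤ τ * s) with hU
    have hUT : ∀ v ∈ U, v ∈ T ∧ ‖v‖ ^ 2 ≤ τ * s := fun v hv => Finset.mem_filter.1 hv
    obtain ⟨U', hs', hanti, hcard⟩ := half U.card U le_rfl (fun v hv => (hT v (hUT v hv).1).2)
    have hU'n : U'.card ≤ n := by
      by_contra hcon
      push Not at hcon
      obtain ⟨U'', hsub, hcard''⟩ := Finset.exists_subset_card_eq (s := U') (n := n + 1) (by omega)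
      let e := (Finset.equivFinOfCardEq hcard'').symm
      apply h1 n (by omega)
      refine ⟨fun i => (e i : V n), ?_, ?_⟩
      · intro i
        exact (hT _ (hUT _ (hs' (hsub (e i).2))).1).2
      · intro i j hij
        have hne : (e i : V n) ≠ (e j : V n) := by
          intro h
          exact hij (e.injective (Subtype.ext h))
        have hi := hUT _ (hs' (hsub (e i).2))
        have hj := hUT _ (hs' (hsub (e j).2))
        obtain ⟨z, hz, hzz⟩ := hcong _ hi.1 _ hj.1
        exact (h2 n s L hn hs hL _ (hT _ hi.1).1 _ (hT _ hj.1).1 z hz hzz hne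
          (hanti _ (hsub (e i).2) _ (hsub (e j).2))).2 τ hτ hi.2 hj.2
    have h6 : (U.card : ℝ) ≤ 2 * n := by
      have : U.card ≤ 2 * n := by omega
      exact_mod_cast this
    calc (U.card : ℝ) * (1 / n) ≤ (2 * n) * (1 / n) :=
          mul_le_mul_of_nonneg_right h6 hinv0.le
      _ = 2 := by field_simp

end Pool.Agent.LPC.H69
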